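import Pool.Agent.Helper88.SE.Goals
import Pool.Agent.Helper80.TU.SU

/-!
# MP_69be96_nt, project SE, packet SU: a bound for the weight at an integer with few rough points
-/

set_option autoImplicit false

open Finset Filter Topology

open scoped Classical

namespace Pool.Agent.Helper50.SE

open Pool.Agent.Helper88.SE
open Pool.Agent.Helper5.GM (card_large sum_label)
open Pool.Agent.Helper80.TU (sum_labels num_card num_exp)
open Pool.Agent.Helper88.PP (pr Rg om Sf SS uu vv ee LA VV QQ cost nc dd)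
open Pool.Agent.Helper88.RR (gg ab TB nz VM)
open Pool.Agent.Helper85.RR (ab_nonneg card_TB mem_TB)
open Pool.Agent.Helper3.PP (mem_SS mem_LA)

theorem LD_sub {z m m' D r : ℕ} (hr : r ∈ LD z m m' D) : r ∈ LA z m m' := by
  unfold LD at hr
  exact (Finset.mem_filter.1 hr).1

theorem mem_TD {m q M z D : ℕ} {P : Finset ℕ} {r : P → ℕ} (hr : r ∈ TD m q M z D P) :
    (∀ i, r i = 0 ∨ r i ∈ LD z m (q * m) D) ∧ cost z r ≤ M := by
  unfold TD at hr
  rw [Finset.mem_filter, Fintype.mem_piFinset] at hr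
  exact ⟨fun i => by simpa [Finset.mem_insert] using hr.1 i, hr.2⟩

theorem TD_sub {m q M z D : ℕ} {P : Finset ℕ} {r : P → ℕ} (hr : r ∈ TD m q M z D P) :
    r ∈ TB m q M z P := by
  obtain ⟨h1, h2⟩ := mem_TD hr
  unfold TB
  rw [Finset.mem_filter, Fintype.mem_piFinset]
  refine ⟨fun i => ?_, h2⟩
  rw [Finset.mem_insert]
  exact (h1 i).imp id LD_sub

/-- numerics: the base -/
theorem num_base {E R : ℕ} {C : ℝ} (hE : 1000 ≤ E) (hR : R ≤ E ^ 3) (hC0 : 0 < C)
    (hCE : Real.log C ≤ E) :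
    1 + (R : ℝ) * (2 * (C * 2 ^ (5 * E))) ≤ Real.exp (8 * E + 2) := by
  have hPE := num_card hE hR
  have h1 : C ≤ Real.exp E := by
    rw [← Real.log_le_iff_le_exp hC0]
    exact hCE
  have h3 : (2 : ℝ) ≤ Real.exp 1 := by
    have := Real.add_one_le_exp (1 : ℝ)
    linarith
  have h2 : (2 : ℝ) ^ (5 * E) ≤ Real.exp (5 * E) := by
    calc (2 : ℝ) ^ (5 * E) ≤ Real.exp 1 ^ (5 * E) := pow_le_pow_left₀ (by norm_num) h3 _
      _ = Real.exp (5 * E) := by
          rw [← Real.exp_nat_mul, mul_one]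
          push_cast
          ring_nf
  have h4 : (R : ℝ) * (2 * (C * 2 ^ (5 * E))) ≤ Real.exp (8 * E + 1) := by
    calc (R : ℝ) * (2 * (C * 2 ^ (5 * E)))
        ≤ Real.exp (2 * E) * (Real.exp 1 * (Real.exp E * Real.exp (5 * E))) := by
          refine mul_le_mul hPE ?_ (by positivity) (Real.exp_pos _).le
          refine mul_le_mul h3 ?_ (by positivity) (Real.exp_pos _).le
          exact mul_le_mul h1 h2 (by positivity) (Real.exp_pos _).le
      _ = Real.exp (8 * E + 1) := by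
          rw [← Real.exp_add, ← Real.exp_add, ← Real.exp_add]
          congr 1
          ring
  have h5 : 1 ≤ Real.exp (8 * (E : ℝ) + 1) := Real.one_le_exp (by positivity)
  have h6 : Real.exp (8 * (E : ℝ) + 2) = Real.exp (8 * E + 1) * Real.exp 1 := by
    rw [← Real.exp_add]
    congr 1
    ring
  rw [h6]
  calc 1 + (R : ℝ) * (2 * (C * 2 ^ (5 * E)))
      ≤ Real.exp (8 * E + 1) + Real.exp (8 * E + 1) := add_le_add h5 h4
    _ = Real.exp (8 * E + 1) * 2 := by ring
    _ ≤ Real.exp (8 * E + 1) * Real.exp 1 := mul_le_mul_of_nonneg_left h3 (Real.exp_pos _).le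

/-- numerics: the end -/
theorem num_end {E K R : ℕ} {C : ℝ} (hE : 1000 ≤ E) (hR : R ≤ E ^ 3) (hC0 : 0 < C)
    (hCE : Real.log C ≤ E) (hK : (K + 1) ^ 3 ≤ E) :
    ((1 + (R : ℝ) * (2 * (C * 2 ^ (5 * E)))) ^ K) ^ 2 ≤ Real.exp ((E : ℝ) ^ 2 / 2) := by
  have hEr : (1000 : ℝ) ≤ E := by exact_mod_cast hE
  have hbase := num_base hE hR hC0 hCE
  have hKE := num_exp hE hK
  have hpos : 0 ≤ 1 + (R : ℝ) * (2 * (C * 2 ^ (5 * E))) := by positivity
  calc ((1 + (R : ℝ) * (2 * (C * 2 ^ (5 * E)))) ^ K) ^ 2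
      ≤ (Real.exp (8 * E + 2) ^ K) ^ 2 :=
        pow_le_pow_left₀ (by positivity) (pow_le_pow_left₀ hpos hbase K) 2
    _ = Real.exp (2 * (K * (8 * E + 2))) := by
        rw [← Real.exp_nat_mul, ← Real.exp_nat_mul]
        norm_num
    _ ≤ Real.exp ((E : ℝ) ^ 2 / 2) := by
        refine Real.exp_le_exp.2 ?_
        have h1 : (K : ℝ) * (8 * E + 2) ≤ E / 100 * (8 * E + 2) :=
          mul_le_mul_of_nonneg_right hKE (by positivity)
        nlinarith

theorem su (vb : StmtVB) : StmtSU := by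
  obtain ⟨C, hC1, hC⟩ := Pool.Agent.Helper31.RR.cb
  obtain ⟨E1, hsize⟩ := Pool.Agent.Helper88.TU.size
  obtain ⟨E2, hvb⟩ := vb
  refine ⟨E1 + E2 + 1000 + ⌈C⌉₊ + ⌈Real.log C⌉₊,
    fun E z x y hE hSx m q hm hqm hVV hK P D hP hD n hn hR => ?_⟩
  obtain ⟨_, _, _, _, hab, _⟩ := hvb E z x y (by omega) hSx m q hm hqm hVV P D hD
  have hSr := hSx.1
  obtain ⟨_, _, _, _, _, _, _, _, hyz, hz64, hzx, _, _, _⟩ := hsize E z x y (by omega) hSr
  obtain ⟨s1, s2, s3, s4, s5⟩ := hSr
  have hE1 : 1000 ≤ E := by omega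
  have hE2 : Real.log C ≤ E := by
    refine (Nat.le_ceil _).trans ?_
    exact_mod_cast (by omega : ⌈Real.log C⌉₊ ≤ E)
  have hEr : (1000 : ℝ) ≤ E := by exact_mod_cast hE1
  have hEz : E ≤ z := by
    have h1 : (E : ℝ) ≤ z := by
      have := Real.add_one_le_exp (E : ℝ)
      linarith
    exact_mod_cast h1
  have hz2 : 2 ≤ z := by omega
  have hC0 : 0 < C := by linarith
  set M := E / 16 with hM
  set K := M / m with hKdef
  set R : Finset P := univ.filter (fun i => Rg y z (n + (i : ℕ))) with hRdef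
  have hRcard : R.card ≤ E ^ 3 := by
    refine le_trans (le_of_eq ?_) hR
    have : (P.filter (fun h => Rg y z (n + h))) = R.map (Function.Embedding.subtype _) := by
      ext i
      simp only [hRdef, Finset.mem_map, Finset.mem_filter, Finset.mem_univ, true_and,
        Function.Embedding.coe_subtype, Subtype.exists, exists_and_left, exists_prop,
        exists_eq_right_right]
      exact and_comm
    rw [this, Finset.card_map]
  -- one point
  have hbig : 2 * x ^ 5 < (z + 1) ^ (5 * E + 1) := by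
    have h1 : x ^ 5 < ((z + 1) ^ E) ^ 5 := Nat.pow_lt_pow_left s3 (by norm_num)
    have h2 : (z + 1) ^ (5 * E + 1) = ((z + 1) ^ E) ^ 5 * (z + 1) := by
      rw [pow_succ, mul_comm 5 E, pow_mul]
    rw [h2]
    calc 2 * x ^ 5 < 2 * ((z + 1) ^ E) ^ 5 := by omega
      _ = ((z + 1) ^ E) ^ 5 * 2 := Nat.mul_comm _ _
      _ ≤ ((z + 1) ^ E) ^ 5 * (z + 1) := Nat.mul_le_mul_left _ (by omega)
  have hS : ∀ i : P, ∑ s ∈ LD z m (q * m) D, ad m q z D s * |vv y z s (n + (i : ℕ))| ≤
      2 * (C * 2 ^ (5 * E)) := by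
    intro i
    have hi := Finset.mem_Icc.1 (hP i.2)
    have h0 : ∑ s ∈ LA z m (q * m), ab m q z s * |vv y z s (n + (i : ℕ))| ≤ C * 2 ^ (5 * E) := by
      refine sum_label (fun d hd => ?_) (by linarith) (by omega) (card_large (by omega) ?_)
      · exact (hC m q (q * m) z hm hz2 (by omega) hVV d hd).1
      · have h1 : x ≤ x ^ 5 := Nat.le_self_pow (by norm_num) x
        omega
    calc ∑ s ∈ LD z m (q * m) D, ad m q z D s * |vv y z s (n + (i : ℕ))|
        ≤ ∑ s ∈ LD z m (q * m) D, 2 * (ab m q z s * |vv y z s (n + (i : ℕ))|) := by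
          refine Finset.sum_le_sum fun s hs => ?_
          rw [← mul_assoc]
          exact mul_le_mul_of_nonneg_right (hab s hs).2 (abs_nonneg _)
      _ ≤ ∑ s ∈ LA z m (q * m), 2 * (ab m q z s * |vv y z s (n + (i : ℕ))|) := by
          refine Finset.sum_le_sum_of_subset_of_nonneg (fun s hs => LD_sub hs) fun s _ _ => ?_
          exact mul_nonneg (by norm_num) (mul_nonneg (ab_nonneg _ _ _ _) (abs_nonneg _))
      _ = 2 * ∑ s ∈ LA z m (q * m), ab m q z s * |vv y z s (n + (i : ℕ))| := by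
          rw [Finset.mul_sum]
      _ ≤ 2 * (C * 2 ^ (5 * E)) := by linarith
  -- the sum
  have hW : |WD m q M z y D P n| ≤ (1 + R.card * (2 * (C * 2 ^ (5 * E)))) ^ K := by
    unfold WD
    refine (Finset.abs_sum_le_sum_abs _ _).trans ?_
    have h1 : ∀ r ∈ TD m q M z D P,
        |∏ i : P, ((if r i = 0 then 1 else - ad m q z D (r i)) * vv y z (r i) (n + (i : ℕ)))| =
        ∏ i : P, (fun (i : P) (s : ℕ) => if s = 0 then (1 : ℝ) else
          |ad m q z D s| * |vv y z s (n + (i : ℕ))|) i (r i) := by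
      intro r _
      rw [Finset.abs_prod]
      refine Finset.prod_congr rfl fun i _ => ?_
      simp only
      split_ifs with h0
      · rw [h0, one_mul]
        unfold vv
        rw [if_pos rfl, abs_one]
      · rw [abs_mul, abs_neg]
    rw [Finset.sum_congr rfl h1]
    have hne : ∀ s ∈ LD z m (q * m) D, s ≠ 0 := by
      intro s hs
      have := (mem_SS.1 (mem_LA.1 (LD_sub hs)).1).1.1
      omega
    refine sum_labels (L := LD z m (q * m) D) (TD m q M z D P) K (2 * (C * 2 ^ (5 * E))) R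
      (fun (i : P) (s : ℕ) => if s = 0 then (1 : ℝ) else
        |ad m q z D s| * |vv y z s (n + (i : ℕ))|)
      (by positivity) (fun r hr => (mem_TD hr).1) (fun r hr => card_TB hm hz2 (TD_sub hr))
      (fun i => if_pos rfl) (fun i s => ?_) (fun i _ => ?_) (fun i hi s hs => ?_)
    · split_ifs
      · exact zero_le_one
      · exact mul_nonneg (abs_nonneg _) (abs_nonneg _)
    · refine le_trans (le_of_eq ?_) (hS i)
      refine Finset.sum_congr rfl fun s hs => ?_
      rw [if_neg (hne s hs), abs_of_nonneg (hab s hs).1]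
    · have h0 := hne s hs
      have h2 : ¬ Rg y z (n + (i : ℕ)) := by
        intro h3
        exact hi (Finset.mem_filter.2 ⟨Finset.mem_univ _, h3⟩)
      rw [if_neg h0]
      unfold vv
      rw [if_neg h0, if_neg h2, abs_zero, mul_zero]
  calc WD m q M z y D P n ^ 2 = |WD m q M z y D P n| ^ 2 := (sq_abs _).symm
    _ ≤ ((1 + (R.card : ℝ) * (2 * (C * 2 ^ (5 * E)))) ^ K) ^ 2 :=
        pow_le_pow_left₀ (abs_nonneg _) hW 2
    _ ≤ Real.exp ((E : ℝ) ^ 2 / 2) := num_end hE1 hRcard hC0 hE2 hK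

end Pool.Agent.Helper50.SE
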